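import Pool.Agent.H16.TO.Targets

/-!
# Two-variable logic with counting over linear orders: spectra are given by tilings (GT)
-/

set_option autoImplicit false

namespace Pool.Agent.H13.TW

open Pool.Agent.H69.Sp Pool.Agent.H69.Mt Pool.Agent.H16.TO

theorem pf_gt (hGS : T_GS) (hGC : T_GC) (hTF : T_TF) : T_GT := by
  intro S hS
  obtain ⟨φ, hc, hd⟩ := hS.exists_fm
  set d := φ.bd + 1 with hdd
  set B := rb φ with hB
  set C := ab φ with hC
  have : Finite (tb φ) := hTF φ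
  refine ⟨d + C, Tile (d + C) B C φ, GG' d (d + C) B C φ, HH' d (d + C) B C φ, by omega,
    inferInstance, fun n hn => ⟨fun ht => ?_, ?_⟩⟩
  · obtain ⟨h1, I, h2⟩ := hGS d B C φ (by omega) le_rfl le_rfl (by omega) n hn ht
    refine ⟨n 0, (hd (n 0)).2 ⟨hn.1 0, I, h2⟩, h1⟩
  · rintro ⟨m, hm, hnm⟩
    have h0 : n 0 = m := hnm 0 (by omega)
    subst h0
    obtain ⟨-, I, hI⟩ := (hd (n 0)).1 hm
    exact hGC d B C φ hc (by omega) le_rfl le_rfl (by omega) n hn hnm ⟨I, hI⟩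

end Pool.Agent.H13.TW
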